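import Pool.Agent.Helper57.ZF.Goals

/-!
# Packet ZF CHART (MP_ef0af8_co, helper57): a `d`-dimensional subspace of `ℝ^(2d)` is a graph of bounded slope
-/

set_option autoImplicit false

namespace Pool.Agent.Helper50.ZF

open Matrix
open Pool.Agent.Helper57.ZF

/-- some `d × d` minor of `2d × d` coordinates does not vanish -/
theorem exists_minor {n d : ℕ} (B : Matrix (Fin n) (Fin d) ℝ) (hB : LinearIndependent ℝ Bᵀ.row) :
    ∃ J : Fin d → Fin n, (B.submatrix J id).det ≠ 0 := by
  have h1 : Bᵀ.rank = d := by rw [hB.rank_matrix, Fintype.card_fin]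
  have h2 : B.rank = d := by rw [← Matrix.rank_transpose, h1]
  rw [Matrix.rank_eq_finrank_span_row] at h2
  obtain ⟨κ, a, ha, hspan, hli⟩ := exists_linearIndependent' ℝ B.row
  rw [← hspan] at h2
  have hfin : Finite κ := Finite.of_injective a ha
  have : Fintype κ := Fintype.ofFinite κ
  have h3 : Fintype.card κ = d := by
    rw [← h2]
    exact (finrank_span_eq_card hli).symm
  let ε : Fin d ≃ κ := (Fintype.equivFinOfCardEq h3).symm
  refine ⟨a ∘ ε, ?_⟩
  have h4 : LinearIndependent ℝ (B.submatrix (a ∘ ε) id).row := by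
    have h5 := hli.comp ε ε.injective
    exact h5
  rw [Matrix.linearIndependent_rows_iff_isUnit, Matrix.isUnit_iff_isUnit_det] at h4
  exact h4.ne_zero

theorem exists_coef {n d : ℕ} (B : Matrix (Fin n) (Fin d) ℝ) (hB : LinearIndependent ℝ Bᵀ.row) :
    ∃ (J : Fin d → Fin n) (a : Fin n → Fin d → ℝ), Function.Injective J ∧
      (B.submatrix J id).det ≠ 0 ∧
      (∀ i k, |a i k| ≤ 1) ∧ ∀ i, B i = ∑ k, a i k • B (J k) := by
  obtain ⟨J₁, hJ₁⟩ := exists_minor B hB
  have : Nonempty (Fin d → Fin n) := ⟨J₁⟩
  obtain ⟨J, hJ⟩ := Finite.exists_max (fun J : Fin d → Fin n => |(B.submatrix J id).det|)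
  have hne : (B.submatrix J id).det ≠ 0 := by
    have h1 : 0 < |(B.submatrix J₁ id).det| := abs_pos.2 hJ₁
    exact abs_pos.1 (h1.trans_le (hJ J₁))
  have hu : IsUnit (B.submatrix J id).det := isUnit_iff_ne_zero.2 hne
  let M : Matrix (Fin d) (Fin d) ℝ := B.submatrix J id
  let a : Fin n → Fin d → ℝ := fun i => B i ᵥ* M⁻¹
  have ha : ∀ i, B i = ∑ k, a i k • B (J k) := by
    intro i
    have h1 : a i ᵥ* M = B i := by
      show (B i ᵥ* M⁻¹) ᵥ* M = B i
      rw [Matrix.vecMul_vecMul, Matrix.nonsing_inv_mul _ hu, Matrix.vecMul_one]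
    rw [← h1]
    ext j
    simp [Matrix.vecMul, dotProduct, M]
  refine ⟨J, a, ?_, hne, ?_, ha⟩
  · intro k l hkl
    by_contra hne'
    apply hne
    apply Matrix.det_zero_of_row_eq hne'
    ext j
    simp [hkl]
  · intro i k
    have h1 : (M.updateRow k (B i)).det = a i k • M.det := by
      have h2 : B i = ∑ l, a i l • M l := ha i
      rw [h2]
      exact Matrix.det_updateRow_sum M k (a i)
    have h2 : M.updateRow k (B i) = B.submatrix (Function.update J k i) id := by
      ext p q
      by_cases hp : p = k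
      · subst hp
        simp
      · simp [Matrix.updateRow_ne hp, Function.update_of_ne hp, M]
    have h3 := hJ (Function.update J k i)
    rw [← h2, h1, smul_eq_mul, abs_mul] at h3
    have h4 : 0 < |M.det| := abs_pos.2 hne
    exact le_of_mul_le_mul_right (by rw [one_mul]; exact h3) h4

theorem CHART : G_CHART := by
  intro d V hV
  let b : Module.Basis (Fin d) ℝ V := Module.finBasisOfFinrankEq ℝ V hV
  let B : Matrix (Fin (2 * d)) (Fin d) ℝ := fun i j => (b j : EuclideanSpace ℝ (Fin (2 * d))) i
  have hB : LinearIndependent ℝ Bᵀ.row := by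
    have h1 : LinearIndependent ℝ (fun j => (b j : EuclideanSpace ℝ (Fin (2 * d)))) :=
      b.linearIndependent.map' V.subtype (Submodule.ker_subtype V)
    have h2 := h1.map' (WithLp.linearEquiv 2 ℝ (Fin (2 * d) → ℝ)).toLinearMap (LinearEquiv.ker _)
    exact h2
  obtain ⟨J, a, hJinj, hdet, ha1, ha⟩ := exists_coef B hB
  have hc : Fintype.card ((Set.range J)ᶜ : Set (Fin (2 * d))) = d := by
    rw [Fintype.card_compl_set, Set.card_range_of_injective hJinj]
    simp
    omega
  let ε : Fin d ≃ ((Set.range J)ᶜ : Set (Fin (2 * d))) := (Fintype.equivFinOfCardEq hc).symm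
  classical
  let e : Fin d ⊕ Fin d ≃ Fin (2 * d) :=
    (Equiv.sumCongr (Equiv.ofInjective J hJinj) ε).trans (Equiv.Set.sumCompl (Set.range J))
  have hel : ∀ k, e (Sum.inl k) = J k := fun k => rfl
  let A₀ : EuclideanSpace ℝ (Fin d) →ₗ[ℝ] EuclideanSpace ℝ (Fin d) :=
    { toFun := fun x => WithLp.toLp 2 (fun i => ∑ k, a (e (Sum.inr i)) k * x k)
      map_add' := by
        intro x y
        ext i
        simp [mul_add, Finset.sum_add_distrib]
      map_smul' := by
        intro c x
        ext i
        simp only [PiLp.smul_apply, smul_eq_mul, RingHom.id_apply, Finset.mul_sum]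
        apply Finset.sum_congr rfl
        intro k _
        ring }
  have hA₀ : ∀ x i, A₀ x i = ∑ k, a (e (Sum.inr i)) k * x k := fun x i => rfl
  refine ⟨e, LinearMap.toContinuousLinearMap A₀, ?_, ?_⟩
  · apply ContinuousLinearMap.opNorm_le_bound _ (Nat.cast_nonneg d)
    intro x
    rw [LinearMap.coe_toContinuousLinearMap']
    rw [← abs_of_nonneg (norm_nonneg (A₀ x)), ← abs_of_nonneg (mul_nonneg (Nat.cast_nonneg d) (norm_nonneg x)),
      ← sq_le_sq, mul_pow, EuclideanSpace.norm_sq_eq, EuclideanSpace.norm_sq_eq]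
    have h1 : ∀ i, ‖A₀ x i‖ ^ 2 ≤ d * ∑ k, ‖x k‖ ^ 2 := by
      intro i
      rw [hA₀, Real.norm_eq_abs, sq_abs]
      have h2 := Finset.sum_mul_sq_le_sq_mul_sq Finset.univ (fun k => a (e (Sum.inr i)) k) (fun k => x k)
      refine h2.trans ?_
      have h3 : ∑ k, a (e (Sum.inr i)) k ^ 2 ≤ d := by
        calc ∑ k, a (e (Sum.inr i)) k ^ 2 ≤ ∑ _k : Fin d, (1 : ℝ) := by
              apply Finset.sum_le_sum
              intro k _
              rw [← sq_abs]
              exact pow_le_one₀ (abs_nonneg _) (ha1 _ _)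
          _ = d := by simp
      have h4 : ∑ k, x k ^ 2 = ∑ k, ‖x k‖ ^ 2 := by
        apply Finset.sum_congr rfl
        intro k _
        rw [Real.norm_eq_abs, sq_abs]
      rw [h4]
      apply mul_le_mul_of_nonneg_right h3
      exact Finset.sum_nonneg fun k _ => by positivity
    calc ∑ i, ‖A₀ x i‖ ^ 2 ≤ ∑ _i : Fin d, d * ∑ k, ‖x k‖ ^ 2 := Finset.sum_le_sum fun i _ => h1 i
      _ = (d : ℝ) ^ 2 * ∑ k, ‖x k‖ ^ 2 := by
        rw [Finset.sum_const, Finset.card_univ, Fintype.card_fin, nsmul_eq_mul]
        ring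
  · -- all coordinates of an element of `V` in terms of the coordinates `J`
    have key : ∀ v ∈ V, ∀ i, v i = ∑ k, a i k * v (J k) := by
      intro v hv i
      have h1 : v = ∑ j, b.repr ⟨v, hv⟩ j • (b j : EuclideanSpace ℝ (Fin (2 * d))) := by
        have h0 := congrArg V.subtype (b.sum_repr ⟨v, hv⟩)
        rw [map_sum] at h0
        simp only [map_smul] at h0
        exact h0.symm
      have h2 : ∀ i, v i = ∑ j, b.repr ⟨v, hv⟩ j * B i j := by
        intro i
        conv_lhs => rw [h1]
        simp [B]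
      rw [h2 i]
      simp_rw [h2, Finset.mul_sum]
      rw [Finset.sum_comm]
      apply Finset.sum_congr rfl
      intro j _
      rw [ha i]
      simp only [Finset.sum_apply, Pi.smul_apply, smul_eq_mul, Finset.mul_sum]
      apply Finset.sum_congr rfl
      intro k _
      ring
    intro v
    constructor
    · intro hv
      ext i
      show v (e (Sum.inr i)) = A₀ (slc d e Sum.inl v) i
      rw [hA₀, key v hv]
      rfl
    · intro hv
      -- the element of `V` with the same coordinates in `J`
      let M : Matrix (Fin d) (Fin d) ℝ := B.submatrix J id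
      have hu : IsUnit M.det := isUnit_iff_ne_zero.2 hdet
      let c : Fin d → ℝ := M⁻¹ *ᵥ (fun k => v (J k))
      let u : EuclideanSpace ℝ (Fin (2 * d)) := ∑ j, c j • (b j : EuclideanSpace ℝ (Fin (2 * d)))
      have huV : u ∈ V := V.sum_mem fun j _ => V.smul_mem _ (b j).2
      have huJ : ∀ k, u (J k) = v (J k) := by
        intro k
        have h1 : M *ᵥ c = fun k => v (J k) := by
          show M *ᵥ (M⁻¹ *ᵥ (fun k => v (J k))) = _
          rw [Matrix.mulVec_mulVec, Matrix.mul_nonsing_inv _ hu, Matrix.one_mulVec]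
        have h2 := congrFun h1 k
        rw [← h2]
        simp [u, Matrix.mulVec, dotProduct, M, B, mul_comm]
      have huv : u = v := by
        ext p
        obtain ⟨q, rfl⟩ := e.surjective p
        cases q with
        | inl k => rw [hel]; exact huJ k
        | inr i =>
          have h1 := key u huV (e (Sum.inr i))
          have h2 : v (e (Sum.inr i)) = ∑ k, a (e (Sum.inr i)) k * v (J k) := by
            have h3 : slc d e Sum.inr v i = A₀ (slc d e Sum.inl v) i := by
              rw [hv]
              rfl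
            rw [hA₀] at h3
            exact h3
          rw [h1, h2]
          apply Finset.sum_congr rfl
          intro k _
          rw [huJ]
      rw [← huv]
      exact huV

end Pool.Agent.Helper50.ZF
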